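import Pool.Agent.MP_7915da_nt.Res

/-! For almost all primes `p` the set `J(p)` has at most `40 x^θ` elements up to `x`,
for any `θ > 3/5`. -/

open Finset

namespace Pool.Agent.MP_7915da_nt

section Digits

variable {p : ℕ} [Fact p.Prime]

lemma good_add {q r : ℚ} (hq : (q.den : ZMod p) ≠ 0) (hr : (r.den : ZMod p) ≠ 0) :
    ((q + r).den : ZMod p) ≠ 0 := by
  intro h
  obtain ⟨c, hc⟩ := Rat.add_den_dvd q r
  have h1 : ((q.den * r.den : ℕ) : ZMod p) = 0 := by rw [hc]; push_cast; rw [h, zero_mul]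
  push_cast at h1
  exact mul_ne_zero hq hr h1

lemma good_sub {q r : ℚ} (hq : (q.den : ZMod p) ≠ 0) (hr : (r.den : ZMod p) ≠ 0) :
    ((q - r).den : ZMod p) ≠ 0 := by
  rw [sub_eq_add_neg]
  exact good_add hq (by simpa using hr)

lemma good_of_dvd {q : ℚ} (h : (p : ℤ) ∣ q.num) : (q.den : ZMod p) ≠ 0 ∧ (q : ZMod p) = 0 := by
  have hp : p.Prime := Fact.out
  constructor
  · intro h0
    rw [ZMod.natCast_eq_zero_iff] at h0
    have h1 : p ∣ q.num.natAbs := Int.natCast_dvd.mp h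
    have h2 := Nat.dvd_gcd h1 h0
    rw [q.reduced] at h2
    exact hp.one_lt.ne' (Nat.dvd_one.mp h2)
  · rw [Rat.cast_def, (ZMod.intCast_zmod_eq_zero_iff_dvd _ _).mpr h, zero_div]

lemma dvd_num_mul {q : ℚ} (hq : (q.den : ZMod p) ≠ 0) : (p : ℤ) ∣ ((p : ℚ) * q).num := by
  have h0 : (((p : ℚ)).den : ZMod p) ≠ 0 := by simp
  have h1 : (((p : ℚ) * q).den : ZMod p) ≠ 0 := by
    intro h
    obtain ⟨c, hc⟩ := Rat.mul_den_dvd (p : ℚ) q
    have h1 : (((p : ℚ).den * q.den : ℕ) : ZMod p) = 0 := by rw [hc]; push_cast; rw [h, zero_mul]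
    rw [Nat.cast_mul] at h1
    exact mul_ne_zero h0 hq h1
  have h2 : (((p : ℚ) * q : ℚ) : ZMod p) = 0 := by
    rw [Rat.cast_mul_of_ne_zero h0 hq, Rat.cast_natCast, ZMod.natCast_self, zero_mul]
  rw [Rat.cast_def, div_eq_zero_iff] at h2
  exact (ZMod.intCast_zmod_eq_zero_iff_dvd _ _).mp (h2.resolve_right h1)

lemma block (m k : ℕ) (hk : k < p) :
    ((harmonic (p * m + k) - harmonic (p * m)).den : ZMod p) ≠ 0 ∧
      ((harmonic (p * m + k) - harmonic (p * m) : ℚ) : ZMod p) = hm p k := by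
  induction k with
  | zero => simp [hm]
  | succ k ih =>
    obtain ⟨h1, h2⟩ := ih (by omega)
    have e1 : harmonic (p * m + (k + 1)) - harmonic (p * m)
        = (harmonic (p * m + k) - harmonic (p * m)) + ((p * m + k + 1 : ℕ) : ℚ)⁻¹ := by
      rw [← add_assoc, harmonic_succ]
      ring
    have e2 : ((p * m + k + 1 : ℕ) : ZMod p) = ((k + 1 : ℕ) : ZMod p) := by
      push_cast
      rw [ZMod.natCast_self]
      ring
    have h3 : ((((p * m + k + 1 : ℕ) : ℚ)⁻¹).den : ZMod p) ≠ 0 := by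
      rw [Rat.inv_natCast_den, if_neg (by omega), e2, Ne, ZMod.natCast_eq_zero_iff]
      intro h
      have := Nat.le_of_dvd (by omega) h
      omega
    rw [e1]
    refine ⟨good_add h1 h3, ?_⟩
    rw [Rat.cast_add_of_ne_zero h1 h3, h2, Rat.cast_inv_nat, e2, hm, hm, sum_range_succ]

lemma good_scale (m : ℕ) : ((harmonic (p * m) - harmonic m / p).den : ZMod p) ≠ 0 := by
  have hp : p.Prime := Fact.out
  induction m with
  | zero => simp
  | succ m ih =>
    have h1 := (block (p := p) m (p - 1) (by have := hp.pos; omega)).1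
    have e0 : p * (m + 1) = p * m + (p - 1) + 1 := by
      have := hp.pos
      rw [mul_add]
      omega
    have hp0 : (p : ℚ) ≠ 0 := by exact_mod_cast hp.ne_zero
    have e1 : harmonic (p * (m + 1)) - harmonic (m + 1) / p
        = (harmonic (p * m) - harmonic m / p)
          + (harmonic (p * m + (p - 1)) - harmonic (p * m)) := by
      have e2 : harmonic (p * (m + 1))
          = harmonic (p * m + (p - 1)) + ((p * (m + 1) : ℕ) : ℚ)⁻¹ := by
        conv_lhs => rw [e0, harmonic_succ, ← e0]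
      rw [e2, harmonic_succ]
      push_cast
      field_simp
      ring
    rw [e1]
    exact good_add ih h1

lemma digit (m k : ℕ) (hk : k < p) (h : (p : ℤ) ∣ (harmonic (p * m + k)).num) :
    (p : ℤ) ∣ (harmonic m).num ∧ hm p k = -((harmonic (p * m) : ℚ) : ZMod p) := by
  have hp : p.Prime := Fact.out
  obtain ⟨h1, h2⟩ := good_of_dvd h
  obtain ⟨h3, h4⟩ := block (p := p) m k hk
  have e1 : harmonic (p * m)
      = harmonic (p * m + k) - (harmonic (p * m + k) - harmonic (p * m)) := by ring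
  have h5 : ((harmonic (p * m)).den : ZMod p) ≠ 0 := by
    rw [e1]
    exact good_sub h1 h3
  constructor
  · have hp0 : (p : ℚ) ≠ 0 := by exact_mod_cast hp.ne_zero
    have e2 : harmonic m = (p : ℚ) * (harmonic (p * m) - (harmonic (p * m) - harmonic m / p)) := by
      field_simp
      ring
    rw [e2]
    exact dvd_num_mul (good_sub h5 (good_scale m))
  · rw [← h4, Rat.cast_sub_of_ne_zero h1 h5, h2, zero_sub]

end Digits

/-- The elements of `J(p)` up to `x`. -/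
def J (p x : ℕ) : Finset ℕ := (range (x + 1)).filter fun n => (p : ℤ) ∣ (harmonic n).num

lemma J_le (p : ℕ) (hp : p.Prime) (θ θ₀ c : ℝ) (h0 : 0 ≤ θ₀) (h1 : θ₀ ≤ 1) (h2 : θ₀ ≤ θ)
    (hc : 0 ≤ c) (hcp : c * (p : ℝ) ^ θ₀ ≤ (p : ℝ) ^ θ)
    (hM : ∀ y : ℕ, 1 ≤ y → y ≤ p → ∀ A : Finset ℕ, A ⊆ range y → ∀ r : ZMod p,
      (∀ k ∈ A, hm p k = r) → (A.card : ℝ) ≤ c * (y : ℝ) ^ θ₀)
    (x : ℕ) (hx : 1 ≤ x) : ((J p x).card : ℝ) ≤ 2 * c * (x : ℝ) ^ θ := by
  classical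
  have : Fact p.Prime := ⟨hp⟩
  induction x using Nat.strong_induction_on with
  | _ x ih =>
  have hx1 : (1 : ℝ) ≤ x := by exact_mod_cast hx
  rcases lt_or_ge x p with hxp | hxp
  · have h3 := hM (x + 1) (by omega) hxp (J p x) (filter_subset _ _)
      (-((harmonic (p * 0) : ℚ) : ZMod p)) (by
        intro k hk
        simp only [J, mem_filter, mem_range] at hk
        exact (digit 0 k (by omega) (by simpa using hk.2)).2)
    refine h3.trans ?_
    have h4 : (((x + 1 : ℕ) : ℝ)) ^ θ₀ ≤ 2 * (x : ℝ) ^ θ := by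
      calc (((x + 1 : ℕ) : ℝ)) ^ θ₀ ≤ (2 * (x : ℝ)) ^ θ₀ :=
            Real.rpow_le_rpow (by positivity) (by push_cast; linarith) h0
        _ = (2 : ℝ) ^ θ₀ * (x : ℝ) ^ θ₀ := Real.mul_rpow (by norm_num) (by positivity)
        _ ≤ 2 * (x : ℝ) ^ θ := by
            apply mul_le_mul _ (Real.rpow_le_rpow_of_exponent_le hx1 h2) (by positivity)
              (by norm_num)
            simpa using Real.rpow_le_rpow_of_exponent_le (by norm_num : (1 : ℝ) ≤ 2) h1
    nlinarith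
  · have hp0 : (0 : ℝ) < p := by exact_mod_cast hp.pos
    have h3 : 1 ≤ x / p := (Nat.le_div_iff_mul_le hp.pos).mpr (by omega)
    have h4 := ih (x / p) (Nat.div_lt_self hx hp.one_lt) h3
    have hmaps : ∀ n ∈ J p x, n / p ∈ J p (x / p) := by
      intro n hn
      simp only [J, mem_filter, mem_range] at hn ⊢
      refine ⟨Nat.lt_succ_of_le (Nat.div_le_div_right (by omega)), ?_⟩
      exact (digit (n / p) (n % p) (Nat.mod_lt _ hp.pos)
        (by rw [Nat.div_add_mod]; exact hn.2)).1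
    have h5 : ∀ m ∈ J p (x / p),
        ((((J p x).filter (fun n => n / p = m)).card : ℕ) : ℝ) ≤ (p : ℝ) ^ θ := by
      intro m _
      refine le_trans ?_ hcp
      have h6 : ((J p x).filter (fun n => n / p = m)).card
          = (((J p x).filter (fun n => n / p = m)).image (fun n => n % p)).card := by
        symm
        apply card_image_of_injOn
        intro a ha b hb hab
        simp only [coe_filter, Set.mem_setOf_eq] at ha hb
        have e1 := Nat.div_add_mod a p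
        have e2 := Nat.div_add_mod b p
        simp only at hab
        rw [ha.2] at e1
        rw [hb.2] at e2
        omega
      rw [h6]
      apply hM p hp.pos le_rfl _ _ (-((harmonic (p * m) : ℚ) : ZMod p))
      · intro k hk
        obtain ⟨n, hn, rfl⟩ := mem_image.mp hk
        simp only [J, mem_filter, mem_range] at hn
        exact (digit m (n % p) (Nat.mod_lt _ hp.pos)
          (by rw [← hn.2, Nat.div_add_mod]; exact hn.1.2)).2
      · intro k hk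
        obtain ⟨n, _, rfl⟩ := mem_image.mp hk
        exact mem_range.mpr (Nat.mod_lt _ hp.pos)
    have hθ : 0 ≤ θ := h0.trans h2
    calc ((J p x).card : ℝ)
        = ∑ m ∈ J p (x / p), ((((J p x).filter (fun n => n / p = m)).card : ℕ) : ℝ) := by
          rw [card_eq_sum_card_fiberwise hmaps]
          push_cast
          rfl
      _ ≤ ∑ _m ∈ J p (x / p), (p : ℝ) ^ θ := sum_le_sum h5
      _ = ((J p (x / p)).card : ℝ) * (p : ℝ) ^ θ := by rw [sum_const, nsmul_eq_mul]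
      _ ≤ 2 * c * ((x / p : ℕ) : ℝ) ^ θ * (p : ℝ) ^ θ :=
          mul_le_mul_of_nonneg_right h4 (by positivity)
      _ = 2 * c * (((x / p : ℕ) : ℝ) * p) ^ θ := by
          rw [Real.mul_rpow (by positivity) hp0.le]
          ring
      _ ≤ 2 * c * (x : ℝ) ^ θ := by
          apply mul_le_mul_of_nonneg_left _ (by positivity)
          apply Real.rpow_le_rpow (by positivity) _ hθ
          exact_mod_cast Nat.div_mul_le_self x p

/-- Weighted count of short triples. -/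
noncomputable def W (X p : ℕ) : ℝ :=
  ∑ x ∈ Icc 1 X ×ˢ Icc 1 X, ((Tr p x.1 x.2).card : ℝ) / ((x.1 + x.2 : ℕ) : ℝ) ^ 4

lemma W_nonneg (X p : ℕ) : 0 ≤ W X p := sum_nonneg fun _ _ => by positivity

lemma fiber_le (X p : ℕ) (hpX : p ≤ X) (η : ℝ) (h0 : 0 < η) (h1 : η < 1)
    (hW : W X p ≤ (p : ℝ) ^ (η - 1)) (y : ℕ) (hy : 1 ≤ y) (hyp : y ≤ p) (A : Finset ℕ)
    (hA : A ⊆ range y) (r : ZMod p) (hr : ∀ k ∈ A, hm p k = r) :
    (A.card : ℝ) ≤ 20 * (y : ℝ) ^ ((3 + η) / 5) := by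
  have hy1 : (1 : ℝ) ≤ y := by exact_mod_cast hy
  have hy0 : (0 : ℝ) < y := by linarith
  set α : ℝ := (2 - η) / 5 with hα
  have ha1 : (1 : ℝ) ≤ (y : ℝ) ^ α := Real.one_le_rpow hy1 (by linarith)
  set D := ⌈(y : ℝ) ^ α⌉₊ with hD
  have hD1 : (y : ℝ) ^ α ≤ D := Nat.le_ceil _
  have hD2 : (D : ℝ) ≤ 2 * (y : ℝ) ^ α := by
    have := Nat.ceil_lt_add_one (by positivity : 0 ≤ (y : ℝ) ^ α)
    linarith
  have hD3 : 1 ≤ D := by exact_mod_cast ha1.trans hD1
  have hD4 : D ≤ y := by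
    apply Nat.ceil_le.mpr
    simpa using Real.rpow_le_rpow_of_exponent_le hy1 (by linarith : α ≤ 1)
  have hD0 : (0 : ℝ) < D := by linarith
  have h2 := card_fiber_le p y D hyp hD3 A hA r hr
  have h3 : (A.card : ℝ) ≤ 2 * (((y / D : ℕ) : ℝ) + 1) +
      ∑ x ∈ (Icc 1 D ×ˢ Icc 1 D).filter (fun x => x.1 + x.2 ≤ D), ((Tr p x.1 x.2).card : ℝ) := by
    exact_mod_cast h2
  have h4 : ((y / D : ℕ) : ℝ) ≤ (y : ℝ) ^ ((3 + η) / 5) := by
    refine Nat.cast_div_le.trans ?_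
    rw [div_le_iff₀ hD0]
    calc (y : ℝ) = (y : ℝ) ^ ((3 + η) / 5 + α) := by
          rw [show (3 + η) / 5 + α = 1 by rw [hα]; ring, Real.rpow_one]
      _ = (y : ℝ) ^ ((3 + η) / 5) * (y : ℝ) ^ α := Real.rpow_add hy0 _ _
      _ ≤ _ := mul_le_mul_of_nonneg_left hD1 (by positivity)
  have h5 : (1 : ℝ) ≤ (y : ℝ) ^ ((3 + η) / 5) := Real.one_le_rpow hy1 (by linarith)
  have h6 : ∑ x ∈ (Icc 1 D ×ˢ Icc 1 D).filter (fun x => x.1 + x.2 ≤ D),
      ((Tr p x.1 x.2).card : ℝ) ≤ (D : ℝ) ^ 4 * W X p := by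
    rw [W, mul_sum]
    refine le_trans (sum_le_sum (g := fun x : ℕ × ℕ => (D : ℝ) ^ 4 *
      (((Tr p x.1 x.2).card : ℝ) / ((x.1 + x.2 : ℕ) : ℝ) ^ 4)) ?_) ?_
    · intro x hx
      simp only [mem_filter, mem_product, mem_Icc] at hx
      have e0 : (0 : ℝ) < ((x.1 + x.2 : ℕ) : ℝ) := by
        have : 0 < x.1 + x.2 := by omega
        exact_mod_cast this
      have e1 : ((x.1 + x.2 : ℕ) : ℝ) ^ 4 ≤ (D : ℝ) ^ 4 :=
        pow_le_pow_left₀ e0.le (by exact_mod_cast hx.2) _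
      rw [← mul_div_assoc, le_div_iff₀ (by positivity), mul_comm]
      exact mul_le_mul_of_nonneg_right e1 (by positivity)
    · apply sum_le_sum_of_subset_of_nonneg
      · intro x hx
        simp only [mem_filter, mem_product, mem_Icc] at hx ⊢
        omega
      · intro x _ _
        positivity
  have h7 : (D : ℝ) ^ 4 * W X p ≤ 16 * (y : ℝ) ^ ((3 + η) / 5) := by
    have e1 : (p : ℝ) ^ (η - 1) ≤ (y : ℝ) ^ (η - 1) :=
      Real.rpow_le_rpow_of_nonpos hy0 (by exact_mod_cast hyp) (by linarith)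
    calc (D : ℝ) ^ 4 * W X p ≤ (2 * (y : ℝ) ^ α) ^ 4 * (y : ℝ) ^ (η - 1) :=
          mul_le_mul (pow_le_pow_left₀ hD0.le hD2 _) (hW.trans e1) (W_nonneg _ _) (by positivity)
      _ = 16 * ((y : ℝ) ^ (α * (4 : ℕ)) * (y : ℝ) ^ (η - 1)) := by
          rw [Real.rpow_mul_natCast hy0.le]
          ring
      _ = 16 * (y : ℝ) ^ ((3 + η) / 5) := by
          rw [← Real.rpow_add hy0]
          congr 2
          rw [hα]
          push_cast
          ring
  linarith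

lemma sum_W_le (X : ℕ) (hX : 1 ≤ X) (S : Finset ℕ) (hS : ∀ p ∈ S, p.Prime) :
    ∑ p ∈ S, W X p * Real.log p ≤ (2 + Real.log X) ^ 3 := by
  have hX1 : (1 : ℝ) ≤ X := by exact_mod_cast hX
  have hL : 0 ≤ Real.log X := Real.log_nonneg hX1
  have h3 : Real.log (3 * X) ≤ 2 + Real.log X := by
    rw [Real.log_mul (by norm_num) (by linarith)]
    have := Real.log_le_sub_one_of_pos (by norm_num : (0 : ℝ) < 3)
    linarith
  have hH : ∑ d ∈ Icc 1 X, ((d : ℝ))⁻¹ ≤ 2 + Real.log X := by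
    have h1 := harmonic_le_one_add_log X
    rw [harmonic_eq_sum_Icc] at h1
    push_cast at h1
    linarith
  have hH0 : 0 ≤ ∑ d ∈ Icc 1 X, ((d : ℝ))⁻¹ := sum_nonneg fun _ _ => by positivity
  calc ∑ p ∈ S, W X p * Real.log p
      = ∑ x ∈ Icc 1 X ×ˢ Icc 1 X, (∑ p ∈ S, ((Tr p x.1 x.2).card : ℝ) * Real.log p)
          / ((x.1 + x.2 : ℕ) : ℝ) ^ 4 := by
        simp only [W, sum_mul, sum_div]
        rw [sum_comm]
        refine sum_congr rfl fun x _ => sum_congr rfl fun p _ => by ring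
    _ ≤ ∑ x ∈ Icc 1 X ×ˢ Icc 1 X, (2 + Real.log X) * (((x.1 : ℝ))⁻¹ * ((x.2 : ℝ))⁻¹) := by
        apply sum_le_sum
        intro x hx
        simp only [mem_product, mem_Icc] at hx
        have e1 := sum_Tr_log_le S hS x.1 x.2 hx.1.1 hx.2.1
        have a1 : (1 : ℝ) ≤ x.1 := by exact_mod_cast hx.1.1
        have a2 : (1 : ℝ) ≤ x.2 := by exact_mod_cast hx.2.1
        have b1 : (x.1 : ℝ) ≤ X := by exact_mod_cast hx.1.2
        have b2 : (x.2 : ℝ) ≤ X := by exact_mod_cast hx.2.2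
        push_cast at e1 ⊢
        generalize ((x.1 : ℕ) : ℝ) = a at *
        generalize ((x.2 : ℕ) : ℝ) = b at *
        have e2 : Real.log (a + b + 1) ≤ 2 + Real.log X :=
          (Real.log_le_log (by linarith) (by linarith)).trans h3
        have e3 : (a + b + 1) ^ 2 * (a * b) ≤ (a + b) ^ 4 := by
          have f1 : (a + b + 1) ^ 2 ≤ 4 * (a + b) ^ 2 := by nlinarith
          have f2 : 4 * (a * b) ≤ (a + b) ^ 2 := by nlinarith [sq_nonneg (a - b)]
          have f3 : 0 ≤ a * b := by positivity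
          nlinarith [sq_nonneg (a + b)]
        rw [div_le_iff₀ (by positivity)]
        refine e1.trans ?_
        have e4 : (a + b + 1) ^ 2 ≤ a⁻¹ * b⁻¹ * (a + b) ^ 4 := by
          rw [← mul_inv, inv_mul_eq_div, le_div_iff₀ (by positivity)]
          exact e3
        rw [mul_assoc, mul_comm]
        exact mul_le_mul e2 e4 (by positivity) (by linarith)
    _ = (2 + Real.log X) * ((∑ d ∈ Icc 1 X, ((d : ℝ))⁻¹) * ∑ d ∈ Icc 1 X, ((d : ℝ))⁻¹) := by
        rw [← mul_sum, sum_mul_sum, sum_product]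
    _ ≤ (2 + Real.log X) * ((2 + Real.log X) * (2 + Real.log X)) :=
        mul_le_mul_of_nonneg_left (mul_le_mul hH hH hH0 (by linarith)) (by linarith)
    _ = _ := by ring

lemma card_bad_le (X : ℕ) (hX : 1 ≤ X) (η δ : ℝ) (h1 : η < 1) (hδ : 0 < δ) (S : Finset ℕ)
    (hS : ∀ p ∈ S, p.Prime ∧ p ≤ X ∧ (p : ℝ) ^ (η - 1) < W X p) :
    (S.card : ℝ) ≤ 2 * (2 + 3 / δ) ^ 3 * (X : ℝ) ^ (1 - η + δ) := by
  have hX1 : (1 : ℝ) ≤ X := by exact_mod_cast hX
  have hX0 : (0 : ℝ) < X := by linarith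
  have h2 := sum_W_le X hX S fun p hp => (hS p hp).1
  have h3 : ∑ _p ∈ S, (X : ℝ) ^ (η - 1) * (1 / 2) ≤ ∑ p ∈ S, W X p * Real.log p := by
    apply sum_le_sum
    intro p hp
    obtain ⟨a1, a2, a3⟩ := hS p hp
    have b1 : (2 : ℝ) ≤ p := by exact_mod_cast a1.two_le
    have b2 : (X : ℝ) ^ (η - 1) ≤ (p : ℝ) ^ (η - 1) :=
      Real.rpow_le_rpow_of_nonpos (by linarith) (by exact_mod_cast a2) (by linarith)
    have b3 : 1 / 2 ≤ Real.log p := by
      have := Real.log_le_log (by norm_num) b1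
      have := Real.log_two_gt_d9
      linarith
    exact mul_le_mul (b2.trans a3.le) b3 (by norm_num) (W_nonneg _ _)
  rw [sum_const, nsmul_eq_mul] at h3
  have h4 : 2 + Real.log X ≤ (2 + 3 / δ) * (X : ℝ) ^ (δ / 3) := by
    have e1 := Real.log_le_rpow_div hX0.le (by positivity : 0 < δ / 3)
    have e2 : (1 : ℝ) ≤ (X : ℝ) ^ (δ / 3) := Real.one_le_rpow hX1 (by positivity)
    have e3 : (X : ℝ) ^ (δ / 3) / (δ / 3) = 3 / δ * (X : ℝ) ^ (δ / 3) := by field_simp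
    rw [add_mul, ← e3]
    linarith
  have h5 : (2 + Real.log X) ^ 3 ≤ (2 + 3 / δ) ^ 3 * (X : ℝ) ^ δ := by
    have e1 : ((X : ℝ) ^ (δ / 3)) ^ 3 = (X : ℝ) ^ δ := by
      rw [← Real.rpow_mul_natCast hX0.le]
      congr 1
      push_cast
      ring
    rw [← e1, ← mul_pow]
    exact pow_le_pow_left₀ (by have := Real.log_nonneg hX1; linarith) h4 _
  have h6 : (X : ℝ) ^ (η - 1) * (X : ℝ) ^ (1 - η) = 1 := by
    rw [← Real.rpow_add hX0]
    simp
  have h7 : (S.card : ℝ) * ((X : ℝ) ^ (η - 1) * (1 / 2)) ≤ (2 + 3 / δ) ^ 3 * (X : ℝ) ^ δ :=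
    h3.trans (h2.trans h5)
  have h8 := mul_le_mul_of_nonneg_right h7 (by positivity : 0 ≤ 2 * (X : ℝ) ^ (1 - η))
  rw [Real.rpow_add hX0]
  calc (S.card : ℝ) = (S.card : ℝ) * ((X : ℝ) ^ (η - 1) * (X : ℝ) ^ (1 - η)) := by
        rw [h6, mul_one]
    _ = _ := by ring
    _ ≤ _ := h8
    _ = _ := by ring

end Pool.Agent.MP_7915da_nt

namespace Pool.Agent.Results.MP_7915da_nt.AlmostAllPrimes

open Pool.Agent.MP_7915da_nt

theorem result (θ κ : ℝ) (hθ : 3 / 5 < θ) (hκ : 0 < κ) (h : 4 < 5 * θ + κ) :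
    ∃ C : ℝ, ∀ X : ℕ, 1 ≤ X →
      (Set.ncard {p : ℕ | p ≤ X ∧ p.Prime ∧ ∃ x : ℕ, 1 ≤ x ∧
        40 * (x : ℝ) ^ θ < (Set.ncard {n : ℕ | n ≤ x ∧ (p : ℤ) ∣ (harmonic n).num} : ℝ)} : ℝ)
        ≤ C * (X : ℝ) ^ κ := by
  classical
  obtain ⟨η, hη1, hη2⟩ := exists_between (show max 0 (1 - κ) < min 1 (5 * θ - 3) by
    simp only [max_lt_iff, lt_min_iff]
    refine ⟨⟨?_, ?_⟩, ?_, ?_⟩ <;> linarith)
  simp only [max_lt_iff, lt_min_iff] at hη1 hη2
  obtain ⟨e0, e1⟩ := hη1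
  obtain ⟨e2, e3⟩ := hη2
  set θ₀ : ℝ := (3 + η) / 5 with hθ₀
  have hg : 0 < θ - θ₀ := by rw [hθ₀]; linarith
  set P := ⌈(20 : ℝ) ^ (θ - θ₀)⁻¹⌉₊ with hP
  refine ⟨P + 2 * (2 + 3 / (κ - (1 - η))) ^ 3, fun X hX => ?_⟩
  have hX1 : (1 : ℝ) ≤ X := by exact_mod_cast hX
  set S := (range (X + 1)).filter (fun p : ℕ => p.Prime ∧ (p : ℝ) ^ (η - 1) < W X p) with hS
  have h1 := card_bad_le X hX η (κ - (1 - η)) e2 (by linarith) S (by
    intro p hp
    simp only [hS, mem_filter, mem_range] at hp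
    exact ⟨hp.2.1, by omega, hp.2.2⟩)
  rw [show 1 - η + (κ - (1 - η)) = κ by ring] at h1
  have h2 : {p : ℕ | p ≤ X ∧ p.Prime ∧ ∃ x : ℕ, 1 ≤ x ∧
      40 * (x : ℝ) ^ θ < (Set.ncard {n : ℕ | n ≤ x ∧ (p : ℤ) ∣ (harmonic n).num} : ℝ)}
      ⊆ ↑(range P ∪ S) := by
    rintro p ⟨hpX, hp, x, hx, hlt⟩
    by_contra hcon
    simp only [coe_union, coe_range, Set.mem_union, Set.mem_Iio, hS, coe_filter, mem_range,
      Set.mem_setOf_eq, not_or, not_lt, not_and] at hcon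
    have hW := hcon.2 (by omega) hp
    have hp0 : (0 : ℝ) < p := by exact_mod_cast hp.pos
    have h3 : 20 * (p : ℝ) ^ θ₀ ≤ (p : ℝ) ^ θ := by
      have a1 : (20 : ℝ) ^ (θ - θ₀)⁻¹ ≤ p := Nat.ceil_le.mp hcon.1
      have a2 := Real.rpow_le_rpow (by positivity) a1 hg.le
      rw [Real.rpow_inv_rpow (by norm_num) hg.ne'] at a2
      calc 20 * (p : ℝ) ^ θ₀ ≤ (p : ℝ) ^ (θ - θ₀) * (p : ℝ) ^ θ₀ :=
            mul_le_mul_of_nonneg_right a2 (by positivity)
        _ = _ := by rw [← Real.rpow_add hp0, sub_add_cancel]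
    have h4 := J_le p hp θ θ₀ 20 (by rw [hθ₀]; linarith) (by rw [hθ₀]; linarith) (by linarith)
      (by norm_num) h3 (fiber_le X p hpX η e0 e2 hW) x hx
    have h5 : {n : ℕ | n ≤ x ∧ (p : ℤ) ∣ (harmonic n).num} = ↑(J p x) := by
      ext n
      simp [J, Nat.lt_succ_iff]
    rw [h5, Set.ncard_coe_finset] at hlt
    linarith
  have h3 := Set.ncard_le_ncard h2 (Finset.finite_toSet _)
  rw [Set.ncard_coe_finset] at h3
  have h4 := h3.trans (card_union_le _ _)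
  rw [card_range] at h4
  have h5 : (1 : ℝ) ≤ (X : ℝ) ^ κ := Real.one_le_rpow hX1 hκ.le
  refine le_trans (Nat.cast_le.mpr h4) ?_
  push_cast
  have h6 : (P : ℝ) ≤ P * (X : ℝ) ^ κ := le_mul_of_one_le_right (by positivity) h5
  rw [add_mul]
  linarith

end Pool.Agent.Results.MP_7915da_nt.AlmostAllPrimes
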