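import Pool.Agent.MP_7915da_nt.J77.Main

/-! For every prime `p` the set of `n` with `H_n ≡ r (mod p)` has `O(x^ε)` elements in every
interval of length `x`, uniformly in `r`; `r = 0` is `J(p)`. -/

namespace Pool.Agent.Results.MP_7915da_nt.SubPolynomial

theorem result : ∀ p : ℕ, p.Prime → ∀ ε : ℝ, 0 < ε → ∃ C : ℝ, ∀ (r : ℚ) (y x : ℕ), 1 ≤ x →
    (((Finset.Ico y (y + x)).filter fun n : ℕ => (p : ℤ) ∣ (harmonic n - r).num).card : ℝ) ≤
      C * (x : ℝ) ^ ε := by
  intro p hp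
  have : Fact p.Prime := ⟨hp⟩
  intro ε hε
  convert Pool.Agent.MP_7915da_nt.J77.main p ε hε

end Pool.Agent.Results.MP_7915da_nt.SubPolynomial
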