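import Mathlib
import Pool.Agent.MP_7915da_nt.D14.Main

set_option autoImplicit false

namespace Pool.Agent.Results.MP_7915da_nt.UpperDensityOne

/-- The integers `n` for which the reduced denominator of the harmonic number `H_n` equals
`lcm(1, …, n)` have lower density zero. -/
theorem result : ∀ ε : ℝ, 0 < ε → ∀ M : ℕ, ∃ N : ℕ, M ≤ N ∧
    (((Finset.Icc 1 N).filter fun n : ℕ =>
      (harmonic n).den = (Finset.Icc 1 n).lcm id).card : ℝ) ≤ ε * N :=
  Pool.Agent.D14.top

end Pool.Agent.Results.MP_7915da_nt.UpperDensityOne
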